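import Mathlib

/-! # Numerical semigroups: perturbation of the generators -/

set_option autoImplicit false

namespace Pool.Agent.X46.AP

open Finset

/-- weight of a vector -/
def wt {d : ℕ} (n : Fin d → ℕ) (a : Fin d → ℕ) : ℕ := ∑ i, a i * n i

theorem wt_add {d : ℕ} (n a b : Fin d → ℕ) : wt n (a + b) = wt n a + wt n b := by
  simp [wt, add_mul, sum_add_distrib]

theorem wt_mono {d : ℕ} (n : Fin d → ℕ) {a b : Fin d → ℕ} (h : a ≤ b) : wt n a ≤ wt n b :=
  sum_le_sum fun i _ => Nat.mul_le_mul_right _ (h i)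

/-- membership in the semigroup generated by `m` and `n` -/
def Mem {d : ℕ} (m : ℕ) (n : Fin d → ℕ) (x : ℕ) : Prop := ∃ (t : ℕ) (a : Fin d → ℕ), x = t * m + wt n a

/-- membership in the Apery set -/
def Ap {d : ℕ} (m : ℕ) (n : Fin d → ℕ) (x : ℕ) : Prop := Mem m n x ∧ ∀ y, Mem m n y → y + m ≠ x

theorem Mem.add {d m : ℕ} {n : Fin d → ℕ} {x y : ℕ} (hx : Mem m n x) (hy : Mem m n y) :
    Mem m n (x + y) := by
  obtain ⟨t, a, rfl⟩ := hx
  obtain ⟨s, b, rfl⟩ := hy
  exact ⟨t + s, a + b, by rw [wt_add]; ring⟩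

theorem mem_wt {d : ℕ} (m : ℕ) (n a : Fin d → ℕ) : Mem m n (wt n a) := ⟨0, a, by simp⟩

theorem Mem.add_mul {d m : ℕ} {n : Fin d → ℕ} {x : ℕ} (hx : Mem m n x) (k : ℕ) :
    Mem m n (x + k * m) := by
  obtain ⟨t, a, rfl⟩ := hx
  exact ⟨t + k, a, by ring⟩

/-- two congruent elements of the Apery set are equal -/
theorem Ap.eq {d m : ℕ} {n : Fin d → ℕ} {x y : ℕ} (hx : Ap m n x) (hy : Ap m n y)
    (h : x ≡ y [MOD m]) : x = y := by
  wlog hxy : x ≤ y generalizing x y
  · exact (this hy hx h.symm (by omega)).symm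
  obtain ⟨k, hk⟩ := (Nat.modEq_iff_dvd' hxy).1 h
  rcases Nat.eq_zero_or_pos k with h0 | h0
  · subst h0
    simp at hk
    omega
  · exfalso
    refine hy.2 (x + (k - 1) * m) (hx.1.add_mul _) ?_
    obtain ⟨j, rfl⟩ : ∃ j, k = j + 1 := ⟨k - 1, by omega⟩
    have : y = x + m * (j + 1) := by omega
    rw [this]
    simp
    ring

/-- the part of a sum in the Apery set is in the Apery set -/
theorem Ap.left {d m : ℕ} {n : Fin d → ℕ} {x y : ℕ} (h : Ap m n (x + y)) (hx : Mem m n x)
    (hy : Mem m n y) : Ap m n x := by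
  refine ⟨hx, fun z hz he => h.2 (z + y) (hz.add hy) ?_⟩
  omega

/-- every element is an element of the Apery set plus a multiple of `m` -/
theorem exists_ap {d m : ℕ} {n : Fin d → ℕ} (hm : 0 < m) {x : ℕ} (hx : Mem m n x) :
    ∃ t y, Ap m n y ∧ x = t * m + y := by
  induction x using Nat.strong_induction_on with
  | _ x ih =>
    by_cases h : Ap m n x
    · exact ⟨0, x, h, by simp⟩
    · unfold Ap at h
      push Not at h
      obtain ⟨y, hy, he⟩ := h hx
      obtain ⟨t, z, hz, ht⟩ := ih y (by omega) hy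
      exact ⟨t + 1, z, hz, by rw [← he, ht]; ring⟩

/-- elements of the Apery set are weights -/
theorem Ap.exists_wt {d m : ℕ} {n : Fin d → ℕ} {x : ℕ} (hx : Ap m n x) :
    ∃ a, x = wt n a := by
  obtain ⟨t, a, h⟩ := hx.1
  rcases Nat.eq_zero_or_pos t with h0 | h0
  · subst h0
    exact ⟨a, by simpa using h⟩
  · exfalso
    obtain ⟨j, rfl⟩ : ∃ j, t = j + 1 := ⟨t - 1, by omega⟩
    exact hx.2 (j * m + wt n a) ⟨j, a, rfl⟩ (by rw [h]; ring)

/-- the staircase -/
def Stair {d : ℕ} (m : ℕ) (n : Fin d → ℕ) (a : Fin d → ℕ) : Prop := Ap m n (wt n a)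

theorem Stair.mono {d m : ℕ} {n : Fin d → ℕ} {a b : Fin d → ℕ} (h : Stair m n b) (hab : a ≤ b) :
    Stair m n a := by
  have : b = a + (b - a) := by
    funext i
    have h3 : a i ≤ b i := hab i
    simp only [Pi.add_apply, Pi.sub_apply]
    omega
  rw [this, Stair, wt_add] at h
  exact h.left (mem_wt _ _ _) (mem_wt _ _ _)

theorem wt_single {d : ℕ} (n : Fin d → ℕ) (i : Fin d) (k : ℕ) : wt n (Pi.single i k) = k * n i := by
  unfold wt
  rw [sum_eq_single i]
  · simp
  · intro j _ hj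
    simp [Pi.single_eq_of_ne hj]
  · simp

/-- coordinates in the staircase are less than `m` -/
theorem Stair.lt {d m : ℕ} {n : Fin d → ℕ} (hm : 0 < m) (hn : ∀ i, 0 < n i) {a : Fin d → ℕ}
    (h : Stair m n a) (i : Fin d) : a i < m := by
  by_contra hc
  push Not at hc
  have key : ∀ k ≤ a i, Ap m n (k * n i) := by
    intro k hk
    have : Stair m n (Pi.single i k) := h.mono (by
      intro j
      by_cases hj : j = i
      · subst hj; simpa using hk
      · simp [Pi.single_eq_of_ne hj])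
    unfold Stair at this
    rwa [wt_single] at this
  -- pigeonhole: `m * n i` and `0` are congruent
  have h0 := key 0 (by omega)
  have h1 := key m hc
  have := Ap.eq h0 h1 (by
    simp only [zero_mul]
    exact (Nat.modEq_zero_iff_dvd.2 (Dvd.intro _ rfl)).symm)
  have hp : 0 < m * n i := Nat.mul_pos hm (hn i)
  omega

end Pool.Agent.X46.AP
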