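import Pool.Agent.X46.AP.Defs

set_option autoImplicit false

namespace Pool.Agent.X46.AP

open Finset

/-- digits -/
def dl {d : ℕ} (m : ℕ) (a : Fin d → ℕ) : ℕ := ∑ i, a i * m ^ (i : ℕ)

theorem dl_succ {d : ℕ} (m : ℕ) (a : Fin (d + 1) → ℕ) : dl m a = a 0 + m * dl m (Fin.tail a) := by
  unfold dl
  rw [Fin.sum_univ_succ, mul_sum]
  simp only [Fin.val_zero, pow_zero, mul_one, Fin.val_succ, Fin.tail]
  congr 1
  apply sum_congr rfl
  intro i _
  ring

theorem dl_lt {d m : ℕ} (hm : 0 < m) (a : Fin d → ℕ) (h : ∀ i, a i < m) : dl m a < m ^ d := by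
  induction d with
  | zero => simp [dl]
  | succ d ih =>
    rw [dl_succ]
    have h1 := ih (Fin.tail a) (fun i => h _)
    have h2 := h 0
    calc a 0 + m * dl m (Fin.tail a) < m + m * dl m (Fin.tail a) := by omega
      _ = m * (dl m (Fin.tail a) + 1) := by ring
      _ ≤ m * m ^ d := Nat.mul_le_mul_left _ h1
      _ = m ^ (d + 1) := by ring

theorem dl_inj {d m : ℕ} (hm : 0 < m) (a b : Fin d → ℕ) (ha : ∀ i, a i < m) (hb : ∀ i, b i < m)
    (h : dl m a = dl m b) : a = b := by
  induction d with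
  | zero => exact Subsingleton.elim _ _
  | succ d ih =>
    rw [dl_succ, dl_succ] at h
    have h0 : a 0 = b 0 := by
      have h1 : (a 0 + m * dl m (Fin.tail a)) % m = (b 0 + m * dl m (Fin.tail b)) % m := by rw [h]
      rw [Nat.add_mul_mod_self_left, Nat.add_mul_mod_self_left, Nat.mod_eq_of_lt (ha 0),
        Nat.mod_eq_of_lt (hb 0)] at h1
      exact h1
    have h1 : dl m (Fin.tail a) = dl m (Fin.tail b) := by
      rw [h0] at h
      exact Nat.eq_of_mul_eq_mul_left hm (by omega)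
    have h2 := ih (Fin.tail a) (Fin.tail b) (fun i => ha _) (fun i => hb _) h1
    funext i
    refine Fin.cases h0 (fun j => ?_) i
    exact congrFun h2 j

/-- the scaling factor -/
def NN (d m : ℕ) : ℕ := m ^ (d + 1) + 1

/-- the perturbed generators -/
def pert {d : ℕ} (m : ℕ) (n : Fin d → ℕ) (i : Fin d) : ℕ := NN d m * n i + m * m ^ (i : ℕ)

theorem wt_pert {d : ℕ} (m : ℕ) (n a : Fin d → ℕ) :
    wt (pert m n) a = NN d m * wt n a + m * dl m a := by
  unfold wt dl pert
  rw [mul_sum, mul_sum, ← sum_add_distrib]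
  apply sum_congr rfl
  intro i _
  ring

theorem wt_pert_modEq {d : ℕ} (m : ℕ) (n a : Fin d → ℕ) :
    wt (pert m n) a ≡ wt n a [MOD m] := by
  rw [wt_pert, NN]
  have : (m ^ (d + 1) + 1) * wt n a + m * dl m a =
      wt n a + m * (m ^ d * wt n a + dl m a) := by ring
  rw [this]
  exact (Nat.modEq_iff_dvd' (Nat.le_add_right _ _)).2 ⟨_, by rw [Nat.add_sub_cancel_left]⟩ |>.symm

theorem ord {d m : ℕ} {n a b : Fin d → ℕ} (hab : wt n a ≡ wt n b [MOD m])
    (hd : dl m a < NN d m) (h : wt (pert m n) b ≤ wt (pert m n) a) : wt n b ≤ wt n a := by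
  by_contra hc
  push Not at hc
  obtain ⟨k, hk⟩ := (Nat.modEq_iff_dvd' hc.le).1 hab
  have hk1 : 1 ≤ k := by
    rcases Nat.eq_zero_or_pos k with h0 | h0
    · subst h0; simp at hk; omega
    · exact h0
  have hm : 0 < m := by
    rcases Nat.eq_zero_or_pos m with h0 | h0
    · subst h0; simp at hk; omega
    · exact h0
  rw [wt_pert, wt_pert] at h
  have h1 : wt n b = wt n a + m * k := by omega
  rw [h1] at h
  have h2 : NN d m * (m * k) ≤ m * dl m a := by
    have : NN d m * (wt n a + m * k) = NN d m * wt n a + NN d m * (m * k) := by ring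
    omega
  have h3 : m * dl m a < m * NN d m := Nat.mul_lt_mul_of_pos_left hd hm
  have h4 : m * NN d m ≤ NN d m * (m * k) := by
    calc m * NN d m = NN d m * (m * 1) := by ring
      _ ≤ NN d m * (m * k) := Nat.mul_le_mul_left _ (Nat.mul_le_mul_left _ hk1)
  omega

theorem pert_pos {d m : ℕ} (hm : 0 < m) (n : Fin d → ℕ) (i : Fin d) : 0 < pert m n i := by
  unfold pert
  have : 0 < m * m ^ (i : ℕ) := by positivity
  omega

/-- elements of the staircase with the same weight are equal -/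
theorem stair_inj {d m : ℕ} (hm : 0 < m) {n a b : Fin d → ℕ} (ha : Stair m (pert m n) a)
    (hb : Stair m (pert m n) b) (h : wt (pert m n) a = wt (pert m n) b) : a = b := by
  have ha' := fun i => ha.lt hm (pert_pos hm n) i
  have hb' := fun i => hb.lt hm (pert_pos hm n) i
  have hA := dl_lt hm a ha'
  have hB := dl_lt hm b hb'
  have hle : m ^ d ≤ NN d m := by
    unfold NN
    have : m ^ d ≤ m ^ (d + 1) := Nat.pow_le_pow_right hm (by omega)
    omega
  have hmod : wt n a ≡ wt n b [MOD m] :=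
    ((wt_pert_modEq m n a).symm.trans (h ▸ Nat.ModEq.refl _)).trans (wt_pert_modEq m n b)
  have h1 := ord hmod (by omega) h.ge
  have h2 := ord hmod.symm (by omega) h.le
  have h3 : wt n a = wt n b := le_antisymm h2 h1
  apply dl_inj hm a b ha' hb'
  rw [wt_pert, wt_pert, h3] at h
  exact Nat.eq_of_mul_eq_mul_left hm (by omega)

/-- congruent elements of the staircase are equal -/
theorem stair_eq {d m : ℕ} (hm : 0 < m) {n a b : Fin d → ℕ} (ha : Stair m (pert m n) a)
    (hb : Stair m (pert m n) b) (h : wt n a ≡ wt n b [MOD m]) : a = b := by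
  apply stair_inj hm ha hb
  exact Ap.eq ha hb (((wt_pert_modEq m n a).trans h).trans (wt_pert_modEq m n b).symm)

/-- corners of the complement of the staircase -/
def Corner {d : ℕ} (m : ℕ) (n : Fin d → ℕ) (c : Fin d → ℕ) : Prop :=
  ¬ Stair m n c ∧ ∀ i, 0 < c i → Stair m n (c - Pi.single i 1)

theorem Corner.le {d m : ℕ} {n : Fin d → ℕ} (hm : 0 < m) (hn : ∀ i, 0 < n i) {c : Fin d → ℕ}
    (h : Corner m n c) (i : Fin d) : c i ≤ m := by
  rcases Nat.eq_zero_or_pos (c i) with h0 | h0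
  · omega
  · have := (h.2 i h0).lt hm hn i
    simp at this
    omega

theorem Corner.dl_lt {d m : ℕ} {n : Fin d → ℕ} (hm : 2 ≤ m) (hn : ∀ i, 0 < n i) {c : Fin d → ℕ}
    (h : Corner m n c) : dl m c < NN d m := by
  have h1 : dl m c ≤ m * dl m (fun _ : Fin d => 1) := by
    unfold dl
    rw [mul_sum]
    apply sum_le_sum
    intro i _
    have := h.le (by omega) hn i
    rw [one_mul]
    exact Nat.mul_le_mul_right _ this
  have h2 := AP.dl_lt (by omega) (fun _ : Fin d => 1) (fun _ => by omega : ∀ _, 1 < m)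
  have h3 : m * dl m (fun _ : Fin d => 1) ≤ m * m ^ d := Nat.mul_le_mul_left _ h2.le
  have h4 : m * m ^ d = m ^ (d + 1) := by ring
  unfold NN
  omega

theorem exists_corner {d m : ℕ} {n : Fin d → ℕ} (a : Fin d → ℕ) (h : ¬ Stair m n a) :
    ∃ c, Corner m n c ∧ c ≤ a := by
  by_cases hc : ∀ i, 0 < a i → Stair m n (a - Pi.single i 1)
  · exact ⟨a, ⟨h, hc⟩, le_rfl⟩
  · push Not at hc
    obtain ⟨i, hi, hs⟩ := hc
    have hlt : ∑ j, (a - Pi.single i 1 : Fin d → ℕ) j < ∑ j, a j := by
      apply sum_lt_sum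
      · intro j _
        simp only [Pi.sub_apply]
        omega
      · exact ⟨i, mem_univ _, by simp; omega⟩
    obtain ⟨c, hc1, hc2⟩ := exists_corner (a - Pi.single i 1) hs
    refine ⟨c, hc1, hc2.trans ?_⟩
    intro j
    simp only [Pi.sub_apply]
    omega
termination_by ∑ j, a j

theorem exists_rep {d m : ℕ} {n : Fin d → ℕ} (hm : 0 < m) (a : Fin d → ℕ) :
    ∃ b t, Stair m n b ∧ wt n a = t * m + wt n b := by
  obtain ⟨t, y, hy, h⟩ := exists_ap hm (mem_wt m n a)
  obtain ⟨b, rfl⟩ := hy.exists_wt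
  exact ⟨b, t, hy, h⟩

theorem corner_rel {d m : ℕ} (hm : 2 ≤ m) {n c : Fin d → ℕ} (hc : Corner m (pert m n) c) :
    ∃ b t t', Stair m (pert m n) b ∧ wt n c = t * m + wt n b ∧ 1 ≤ t' ∧
      wt (pert m n) c = t' * m + wt (pert m n) b := by
  obtain ⟨b, t', hb, ht'⟩ := exists_rep (n := pert m n) (by omega : 0 < m) c
  have h1 : 1 ≤ t' := by
    rcases Nat.eq_zero_or_pos t' with h0 | h0
    · exfalso
      subst h0
      apply hc.1
      have : wt (pert m n) c = wt (pert m n) b := by simpa using ht'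
      unfold Stair
      rw [this]
      exact hb
    · exact h0
  have hmod' : wt (pert m n) b ≡ wt (pert m n) c [MOD m] := by
    rw [ht']
    exact (Nat.modEq_iff_dvd' (Nat.le_add_left _ _)).2 ⟨t', by rw [Nat.add_sub_cancel, mul_comm]⟩
  have hmod : wt n b ≡ wt n c [MOD m] :=
    ((wt_pert_modEq m n b).symm.trans hmod').trans (wt_pert_modEq m n c)
  have hle := ord hmod.symm (hc.dl_lt hm (pert_pos (by omega) n)) (by rw [ht']; omega)
  obtain ⟨t, ht⟩ := (Nat.modEq_iff_dvd' hle).1 hmod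
  refine ⟨b, t, t', hb, ?_, h1, ht'⟩
  rw [mul_comm t m]
  omega

end Pool.Agent.X46.AP
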