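import Pool.Agent.X46.AP.Pert

set_option autoImplicit false

namespace Pool.Agent.X46.AP

open Finset

/-- The set of relations `R` generates the kernel congruence of the factorization map
`a ↦ ∑ i, a i * g i`. -/
def IsPresentation {e : ℕ} (g : Fin e → ℕ) (R : Set ((Fin e → ℕ) × (Fin e → ℕ))) : Prop :=
  ∀ a b : Fin e → ℕ,
    (addConGen (fun x y => (x, y) ∈ R)) a b ↔ ∑ i, a i * g i = ∑ i, b i * g i

/-- The number of minimal relations: the least cardinality of a presentation. -/
noncomputable def numRelations {e : ℕ} (g : Fin e → ℕ) : ℕ∞ :=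
  ⨅ R : {R : Set ((Fin e → ℕ) × (Fin e → ℕ)) // IsPresentation g R}, (R.1).encard

theorem val_eq {d : ℕ} (g : Fin (d + 1) → ℕ) (a : Fin (d + 1) → ℕ) :
    ∑ i, a i * g i = a 0 * g 0 + wt (Fin.tail g) (Fin.tail a) := by
  rw [Fin.sum_univ_succ]
  rfl

/-- the corners -/
def corners {d : ℕ} (m : ℕ) (n : Fin d → ℕ) : Set (Fin d → ℕ) := {c | Corner m (pert m n) c}

theorem corners_finite {d m : ℕ} (hm : 0 < m) (n : Fin d → ℕ) : (corners m n).Finite :=
  (Set.finite_Iic (fun _ : Fin d => m)).subset fun _ hc i => hc.le hm (pert_pos hm n) i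

theorem corners_encard_le {d m : ℕ} (hm : 0 < m) (n : Fin d → ℕ) :
    (corners m n).encard ≤ (((m + 1) ^ d : ℕ) : ℕ∞) := by
  have h : corners m n ⊆ (Fintype.piFinset (fun _ : Fin d => range (m + 1)) : Set (Fin d → ℕ)) := by
    intro c hc
    simp only [Finset.mem_coe, Fintype.mem_piFinset, mem_range]
    intro i
    have := Corner.le hm (pert_pos hm n) hc i
    omega
  refine (Set.encard_le_encard h).trans ?_
  rw [Set.encard_coe_eq_coe_finsetCard, Fintype.card_piFinset]
  simp

theorem upper {d m : ℕ} (hm : 2 ≤ m) (g : Fin (d + 1) → ℕ) (h0 : g 0 = m) :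
    numRelations g ≤ (corners m (Fin.tail g)).encard := by
  classical
  set n := Fin.tail g with hn
  have hm0 : 0 < m := by omega
  have key : ∀ c : corners m n, ∃ b t t', Stair m (pert m n) b ∧ wt n c.1 = t * m + wt n b ∧
      1 ≤ t' ∧ wt (pert m n) c.1 = t' * m + wt (pert m n) b := fun c => corner_rel hm c.2
  choose b t t' hb ht ht1 ht' using key
  let rel : corners m n → (Fin (d + 1) → ℕ) × (Fin (d + 1) → ℕ) := fun c =>
    (Fin.cons 0 c.1, Fin.cons (t c) (b c))
  have hcard : (Set.range rel).encard ≤ (corners m n).encard := by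
    rw [← Set.image_univ]
    refine (Set.encard_image_le _ _).trans ?_
    rw [Set.encard_univ]
    exact le_rfl
  refine le_trans (iInf_le _ ⟨Set.range rel, ?_⟩) hcard
  intro x y
  constructor
  · intro h
    have hle : addConGen (fun x y => (x, y) ∈ Set.range rel) ≤
        AddCon.ker ({ toFun := fun a => ∑ i, a i * g i, map_zero' := by simp,
                      map_add' := fun a b => by simp [add_mul, sum_add_distrib] } :
          (Fin (d + 1) → ℕ) →+ ℕ) := by
      rw [AddCon.addConGen_le]
      rintro x y ⟨c, hc⟩
      rw [AddCon.ker_rel]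
      simp only [rel, Prod.mk.injEq] at hc
      obtain ⟨rfl, rfl⟩ := hc
      simp only [AddMonoidHom.coe_mk, ZeroHom.coe_mk]
      rw [val_eq, val_eq, ← hn]
      simp only [Fin.cons_zero, Fin.tail_cons, h0, zero_mul, zero_add]
      exact ht c
    have := hle h
    rw [AddCon.ker_rel] at this
    exact this
  · -- normal forms
    have nf : ∀ (N : ℕ) (x : Fin (d + 1) → ℕ), wt (pert m n) (Fin.tail x) = N →
        ∃ u b, Stair m (pert m n) b ∧
          (addConGen (fun x y => (x, y) ∈ Set.range rel)) x (Fin.cons u b) := by
      intro N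
      induction N using Nat.strong_induction_on with
      | _ N ih =>
        intro x hx
        by_cases hs : Stair m (pert m n) (Fin.tail x)
        · refine ⟨x 0, Fin.tail x, hs, ?_⟩
          rw [Fin.cons_self_tail]
          exact AddCon.refl _ _
        · obtain ⟨c, hc, hcx⟩ := exists_corner _ hs
          let c' : corners m n := ⟨c, hc⟩
          have hdec : Fin.tail x = (Fin.tail x - c) + c := by
            funext i
            have h3 : c i ≤ Fin.tail x i := hcx i
            simp only [Pi.add_apply, Pi.sub_apply]
            omega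
          have hx' : x = Fin.cons (x 0) (Fin.tail x - c) + Fin.cons 0 c := by
            funext i
            refine Fin.cases ?_ (fun j => ?_) i
            · simp
            · have := congrFun hdec j
              simp only [Pi.add_apply, Fin.cons_succ] at this ⊢
              rw [← this]
              rfl
          have h1 : (addConGen (fun x y => (x, y) ∈ Set.range rel)) x
              (Fin.cons (x 0) (Fin.tail x - c) + Fin.cons (t c') (b c')) := by
            conv_lhs => rw [hx']
            apply AddCon.add _ (AddCon.refl _ _)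
            apply AddConGen.Rel.of
            exact ⟨c', rfl⟩
          have h2 : wt (pert m n) (Fin.tail (Fin.cons (x 0) (Fin.tail x - c) +
              Fin.cons (t c') (b c') : Fin (d + 1) → ℕ)) < N := by
            have e1 : Fin.tail (Fin.cons (x 0) (Fin.tail x - c) +
              Fin.cons (t c') (b c') : Fin (d + 1) → ℕ) = (Fin.tail x - c) + b c' := by
              funext i
              simp [Fin.tail]
            rw [e1, wt_add]
            have e2 : wt (pert m n) (Fin.tail x) = wt (pert m n) (Fin.tail x - c) +
                wt (pert m n) c := by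
              conv_lhs => rw [hdec]
              rw [wt_add]
            have e3 := ht' c'
            have e4 := ht1 c'
            have e5 : m ≤ t' c' * m := Nat.le_mul_of_pos_left _ e4
            have e6 : wt (pert m n) c = t' c' * m + wt (pert m n) (b c') := e3
            omega
          obtain ⟨u, b', hb', hr⟩ := ih _ h2 _ rfl
          exact ⟨u, b', hb', AddCon.trans _ h1 hr⟩
    have sound : ∀ x y : Fin (d + 1) → ℕ,
        (addConGen (fun x y => (x, y) ∈ Set.range rel)) x y →
        ∑ i, x i * g i = ∑ i, y i * g i := by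
      intro x y h
      have hle : addConGen (fun x y => (x, y) ∈ Set.range rel) ≤
          AddCon.ker ({ toFun := fun a => ∑ i, a i * g i, map_zero' := by simp,
                        map_add' := fun a b => by simp [add_mul, sum_add_distrib] } :
            (Fin (d + 1) → ℕ) →+ ℕ) := by
        rw [AddCon.addConGen_le]
        rintro x y ⟨c, hc⟩
        rw [AddCon.ker_rel]
        simp only [rel, Prod.mk.injEq] at hc
        obtain ⟨rfl, rfl⟩ := hc
        simp only [AddMonoidHom.coe_mk, ZeroHom.coe_mk]
        rw [val_eq, val_eq, ← hn]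
        simp only [Fin.cons_zero, Fin.tail_cons, h0, zero_mul, zero_add]
        exact ht c
      have := hle h
      rw [AddCon.ker_rel] at this
      exact this
    intro hxy
    obtain ⟨u, b1, hb1, h1⟩ := nf _ x rfl
    obtain ⟨v, b2, hb2, h2⟩ := nf _ y rfl
    have e1 := sound _ _ h1
    have e2 := sound _ _ h2
    have e3 : u * m + wt n b1 = v * m + wt n b2 := by
      have : ∑ i, (Fin.cons u b1 : Fin (d + 1) → ℕ) i * g i =
          ∑ i, (Fin.cons v b2 : Fin (d + 1) → ℕ) i * g i := by rw [← e1, ← e2, hxy]
      rw [val_eq, val_eq, ← hn] at this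
      simpa only [Fin.cons_zero, Fin.tail_cons, h0] using this
    have e4 : wt n b1 ≡ wt n b2 [MOD m] := by
      have h5 : u * m + wt n b1 ≡ wt n b1 [MOD m] := by
        simp [Nat.ModEq, Nat.add_mod]
      have h6 : v * m + wt n b2 ≡ wt n b2 [MOD m] := by
        simp [Nat.ModEq, Nat.add_mod]
      exact (h5.symm.trans (by rw [e3])).trans h6
    have e5 := stair_eq hm0 hb1 hb2 e4
    subst e5
    have e6 : u = v := Nat.eq_of_mul_eq_mul_right hm0 (by omega)
    subst e6
    exact AddCon.trans _ h1 (AddCon.symm _ h2)

/-- the potential of a function on the corners -/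
noncomputable def pot {d m : ℕ} {n : Fin d → ℕ} (f : corners m n → ℚ) (x : Fin (d + 1) → ℕ) : ℚ :=
  open scoped Classical in
  if h : x 0 = 0 ∧ Fin.tail x ∈ corners m n then f ⟨Fin.tail x, h.2⟩ else 0

theorem pot_eq_of_ne {d m : ℕ} (hm : 2 ≤ m) {n : Fin d → ℕ} {g : Fin (d + 1) → ℕ} (h0 : g 0 = m)
    (hg : Fin.tail g = pert m n) (f : corners m n → ℚ) {u v z : Fin (d + 1) → ℕ}
    (huv : ∑ i, u i * g i = ∑ i, v i * g i) (hz : z ≠ 0) (hne : pot f (u + z) ≠ 0) : u = v := by
  classical
  have hm0 : 0 < m := by omega
  unfold pot at hne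
  split_ifs at hne with h
  · obtain ⟨h1, h2⟩ := h
    have hu0 : u 0 = 0 := by simp only [Pi.add_apply] at h1; omega
    have hz0 : z 0 = 0 := by simp only [Pi.add_apply] at h1; omega
    obtain ⟨i, hi⟩ : ∃ i, z (Fin.succ i) ≠ 0 := by
      by_contra hc
      push Not at hc
      apply hz
      funext j
      refine Fin.cases hz0 (fun k => hc k) j
    have hpos : 0 < (Fin.tail (u + z)) i := by
      simp only [Fin.tail, Pi.add_apply]
      omega
    have hs := h2.2 i hpos
    have hu : Stair m (pert m n) (Fin.tail u) := by
      apply hs.mono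
      intro j
      by_cases hj : j = i
      · subst hj
        simp only [Fin.tail, Pi.sub_apply, Pi.add_apply, Pi.single_eq_same]
        omega
      · simp only [Fin.tail, Pi.sub_apply, Pi.add_apply, Pi.single_eq_of_ne hj]
        omega
    rw [val_eq, val_eq, h0, hg, hu0, zero_mul, zero_add] at huv
    have hv0 : v 0 = 0 := by
      by_contra hc
      obtain ⟨j, hj⟩ : ∃ j, v 0 = j + 1 := ⟨v 0 - 1, by omega⟩
      refine hu.2 (j * m + wt (pert m n) (Fin.tail v)) ⟨j, _, rfl⟩ ?_
      rw [huv, hj]
      ring
    rw [hv0, zero_mul, zero_add] at huv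
    have hv : Stair m (pert m n) (Fin.tail v) := by
      unfold Stair
      rw [← huv]
      exact hu
    have := stair_inj hm0 hu hv huv
    funext j
    refine Fin.cases (by rw [hu0, hv0]) (fun k => ?_) j
    exact congrFun this k
  · exact absurd rfl hne

theorem lower {d m : ℕ} (hm : 2 ≤ m) {n : Fin d → ℕ} {g : Fin (d + 1) → ℕ} (h0 : g 0 = m)
    (hg : Fin.tail g = pert m n) : (corners m n).encard ≤ numRelations g := by
  classical
  have hm0 : 0 < m := by omega
  refine le_iInf ?_
  rintro ⟨P, hP⟩
  simp only
  by_cases hfin : P.Finite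
  swap
  · rw [Set.encard_eq_top_iff.2 hfin]
    exact le_top
  have : Fintype P := hfin.fintype
  have : Fintype (corners m n) := (corners_finite hm0 n).fintype
  rw [← Set.coe_fintypeCard, ← Set.coe_fintypeCard]
  norm_cast
  let L : (corners m n → ℚ) →ₗ[ℚ] (P → ℚ) :=
    { toFun := fun f p => pot f p.1.1 - pot f p.1.2
      map_add' := by
        intro f f'
        funext p
        simp only [pot, Pi.add_apply]
        split_ifs <;> ring
      map_smul' := by
        intro a f
        funext p
        simp only [pot, Pi.smul_apply, smul_eq_mul, RingHom.id_apply]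
        split_ifs <;> ring }
  have hinj : Function.Injective L := by
    rw [← LinearMap.ker_eq_bot, LinearMap.ker_eq_bot']
    intro f hf
    have hf' : ∀ p ∈ P, pot f p.1 = pot f p.2 := by
      intro p hp
      have := congrFun hf ⟨p, hp⟩
      simp only [L, LinearMap.coe_mk, AddHom.coe_mk, Pi.zero_apply] at this
      linarith
    let K : AddCon (Fin (d + 1) → ℕ) :=
      { r := fun x y => ∀ z, pot f (x + z) = pot f (y + z)
        iseqv := ⟨fun _ _ => rfl, fun h z => (h z).symm, fun h h' z => (h z).trans (h' z)⟩
        add' := by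
          intro w x y z h1 h2 t
          have e1 := h1 (y + t)
          have e2 := h2 (x + t)
          rw [show w + y + t = w + (y + t) by ring, e1, show x + (y + t) = y + (x + t) by ring, e2,
            show z + (x + t) = x + z + t by ring] }
    have hle : addConGen (fun x y => (x, y) ∈ P) ≤ K := by
      rw [AddCon.addConGen_le]
      intro u v huv z
      by_cases hz : z = 0
      · subst hz
        simpa using hf' _ huv
      · have hval : ∑ i, u i * g i = ∑ i, v i * g i := (hP u v).1 (AddConGen.Rel.of _ _ huv)
        by_cases h1 : pot f (u + z) = 0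
        · by_cases h2 : pot f (v + z) = 0
          · rw [h1, h2]
          · rw [pot_eq_of_ne hm h0 hg f hval.symm hz h2]
        · rw [pot_eq_of_ne hm h0 hg f hval hz h1]
    funext c
    obtain ⟨b, t, t', hb, ht, ht1, ht'⟩ := corner_rel hm c.2
    have hrel : (addConGen (fun x y => (x, y) ∈ P)) (Fin.cons 0 c.1) (Fin.cons t' b) := by
      rw [hP, val_eq, val_eq, h0, hg]
      simp only [Fin.cons_zero, Fin.tail_cons, zero_mul, zero_add]
      exact ht'
    have h1 := hle hrel 0
    simp only [add_zero] at h1
    have h2 : pot f (Fin.cons 0 c.1) = f c := by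
      unfold pot
      rw [dif_pos ⟨by simp, by rw [Fin.tail_cons]; exact c.2⟩]
      congr 1
    have h3 : pot f (Fin.cons t' b) = 0 := by
      unfold pot
      rw [dif_neg]
      rintro ⟨h, -⟩
      simp only [Fin.cons_zero] at h
      omega
    rw [Pi.zero_apply, ← h2, h1, h3]
  have := LinearMap.finrank_le_finrank_of_injective hinj
  simpa using this

end Pool.Agent.X46.AP
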